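import Pool.Agent.H9.SSDe

/-!
# An Asplund space without strongly subdifferentiable renorming, in ZFC

The space is `C_0(T)` for the full uncountably branching tree `T` of height `ω₁`. Concretely, `T` is the
set of countable subsets of a well-ordered uncountable set `W` with countable initial segments, ordered
by the relation `A` is an initial segment of `B`, and `X` is the closed linear span, in the space of
bounded real functions on `T`, of the functions `e_t`, the indicator of `{s | s ≤ t}`.

* Asplund: the dual of `X` is the closed span of the evaluations (`SSD.all_mem`), and a separable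
  subspace lives on countably many points (`SSD.separable_dual`).
* No equivalent SSD norm `N`: let `P_s` be the restriction to `{x | x ≤ s}`. An averaging argument over
  disjointly supported functions gives, for every `s`, a cover `u` of `s` such that `N(P_s f) ≤ N(P_s f + v)`
  for all `v` supported above `u`. The nodes all of whose steps are of this form are called good; on
  good nodes `N(P_s f)` is increasing in `s`, good nodes are closed under limits, and monotone bounded
  functions on good nodes stabilise. This yields good nodes `s_0 < s_1 < ...` with limit `t` such that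
  `N(P_(s_n) h) → N(h)` for all `h` supported on `{x | x ≤ t}`, although `P_(s_n) h` need not converge
  to `h`. An argument in the style of Simons' inequality, applied to the vectors `e_t - e_(s_n)`, then
  produces a vector `h` at which the norm is not strongly subdifferentiable (`SSD.core_lemma`).
-/

open Filter Topology TopologicalSpace

namespace Pool.Agent.Results.MP_15aca8_an.NoSSDRenorming

/-- The seminorm `p` is an *equivalent norm* on the normed space `X`: for some constants `0 < a ≤ b` one
has `a ‖x‖ ≤ p x ≤ b ‖x‖` for all `x`. -/
def IsEquivalentNorm {X : Type*} [NormedAddCommGroup X] [NormedSpace ℝ X] (p : Seminorm ℝ X) : Prop :=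
  ∃ a b : ℝ, 0 < a ∧ a ≤ b ∧ ∀ x : X, a * ‖x‖ ≤ p x ∧ p x ≤ b * ‖x‖

/-- The norm `p` is *strongly subdifferentiable (SSD) at* `x`: the one-sided limit of
`(p (x + t h) - p x) / t` as `t → 0+` exists uniformly for `h` in the unit sphere `{h | p h = 1}`. -/
def IsSSDAt {X : Type*} [AddCommGroup X] [Module ℝ X] (p : Seminorm ℝ X) (x : X) : Prop :=
  ∃ φ : X → ℝ, TendstoUniformlyOn (fun (t : ℝ) (h : X) => (p (x + t • h) - p x) / t) φ (𝓝[>] (0 : ℝ))
    {h : X | p h = 1}

/-- The norm `p` is *SSD* if it is SSD at every point. -/
def IsSSD {X : Type*} [AddCommGroup X] [Module ℝ X] (p : Seminorm ℝ X) : Prop :=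
  ∀ x : X, IsSSDAt p x

/-- `X` is an *Asplund space*: every separable closed subspace of `X` has separable dual. -/
def IsAsplund (X : Type*) [NormedAddCommGroup X] [NormedSpace ℝ X] : Prop :=
  ∀ Y : Submodule ℝ X, IsClosed (Y : Set X) → SeparableSpace Y → SeparableSpace (StrongDual ℝ Y)

/-- **There is an Asplund space which admits no equivalent strongly subdifferentiable norm.** -/
theorem result : ∃ (X : Type) (_ : NormedAddCommGroup X) (_ : NormedSpace ℝ X) (_ : CompleteSpace X),
    IsAsplund X ∧ ∀ p : Seminorm ℝ X, IsEquivalentNorm p → ¬ IsSSD p := by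
  obtain ⟨W, _, _, hcI, hW⟩ := SSD.exists_W
  letI : TopologicalSpace (SSD.Node W) := ⊥
  haveI : DiscreteTopology (SSD.Node W) := ⟨rfl⟩
  have H : SSD.TreeHyp (SSD.Node W) := SSD.Node.treeHyp hcI hW
  refine ⟨SSD.TS (SSD.Node W), inferInstance, inferInstance, inferInstance, ?_, ?_⟩
  · intro Y _ hsep
    exact SSD.separable_dual H (SSD.sys (SSD.Node W)) Y
  · rintro p ⟨a, b, ha, hab, h⟩
    exact SSD.not_SSD (SSD.sys (SSD.Node W)) H p ha (ha.trans_le hab) h

end Pool.Agent.Results.MP_15aca8_an.NoSSDRenorming
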